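import Pool.Agent.NPC.Dec

/-!
# GlobalECC has a constant-constant bicriteria approximation

The algorithm is a local-ratio algorithm (pay the minimum residual price on every unhit triple)
for a surrogate hitting set problem whose elements are the hyperedges and the pairs
(node, colour); it is run with several prices, and the best outcome is returned.
-/

namespace Pool.Agent.Results.MP_120f76_lc.ConstantBicriteria

open Pool.Agent.NPC

/-! ### The problem -/

/-- An instance: the list of nodes, the list of colours, the list of hyperedges (each given by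
its colour and the list of its nodes), and the budget. -/
abbrev Inst := (List ℕ × List ℕ) × List (ℕ × List ℕ) × ℕ

/-- The nodes of an instance. -/
def nodes (I : Inst) : List ℕ := I.1.1

/-- The colours of an instance. -/
def colours (I : Inst) : List ℕ := I.1.2

/-- The hyperedges of an instance, as pairs (colour, nodes). -/
def edges (I : Inst) : List (ℕ × List ℕ) := I.2.1

/-- The budget of an instance. -/
def budget (I : Inst) : ℕ := I.2.2

/-- An instance is valid when nodes and colours are listed without repetition, there is some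
colour, and every hyperedge is a nonempty set of nodes with a colour from the list. -/
def Valid (I : Inst) : Prop :=
  (nodes I).Nodup ∧ (colours I).Nodup ∧ colours I ≠ [] ∧
    ∀ e ∈ edges I, e.1 ∈ colours I ∧ e.2 ≠ [] ∧ ∀ v ∈ e.2, v ∈ nodes I

/-- `S` assigns to every node a nonempty set of colours. -/
def IsAssignment (I : Inst) (S : ℕ → Finset ℕ) : Prop :=
  ∀ v ∈ nodes I, (S v).Nonempty ∧ ∀ c ∈ S v, c ∈ colours I

/-- The number of extra colours, `∑ v, (|S v| - 1)`. -/
def extra (I : Inst) (S : ℕ → Finset ℕ) : ℕ := ∑ v ∈ (nodes I).toFinset, ((S v).card - 1)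

/-- The number of mistakes: hyperedges some node of which is not assigned the colour of the
hyperedge. -/
def mistakes (I : Inst) (S : ℕ → Finset ℕ) : ℕ :=
  (edges I).countP (fun e => ¬ ∀ v ∈ e.2, e.1 ∈ S v)

/-- The least number of mistakes of an assignment respecting the budget. -/
noncomputable def opt (I : Inst) : ℕ :=
  sInf {m | ∃ S, IsAssignment I S ∧ extra I S ≤ budget I ∧ mistakes I S = m}

/-- The assignment described by a list of pairs (node, colour). -/
def decode (o : List (ℕ × ℕ)) (v : ℕ) : Finset ℕ := ((o.filter (fun p => p.1 = v)).map Prod.snd).toFinset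

/-- The algorithm `A` is a bicriteria `(α, β)`-approximation. -/
def Bicriteria (α β : ℝ) (A : Inst → List (ℕ × ℕ)) : Prop :=
  ∀ I, Valid I → IsAssignment I (decode (A I)) ∧
    (extra I (decode (A I)) : ℝ) ≤ β * budget I ∧
    (mistakes I (decode (A I)) : ℝ) ≤ α * opt I

/-! ### Local ratio -/

/-- Elements of the surrogate hitting set problem: hyperedges (by index) and pairs (node, colour). -/
abbrev El := ℕ ⊕ (ℕ × ℕ)

/-- Triples of elements. -/
abbrev Tri := El × El × El

/-- Membership in a triple. -/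
def has (t : Tri) (x : El) : Bool := decide (x = t.1) || (decide (x = t.2.1) || decide (x = t.2.2))

/-- The amount paid on an element. -/
def paid (P : List (Tri × ℕ)) (x : El) : ℕ := ((P.filter (fun p => has p.1 x)).map Prod.snd).sum

/-- The price of an element. -/
def wt (w : ℕ × ℕ) (x : El) : ℕ := Sum.elim (fun _ => w.1) (fun _ => w.2) x

/-- The residual price of an element. -/
def res (w : ℕ × ℕ) (P : List (Tri × ℕ)) (x : El) : ℕ := wt w x - paid P x

/-- The amount that can be paid on a triple. -/
def del (w : ℕ × ℕ) (P : List (Tri × ℕ)) (t : Tri) : ℕ :=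
  min (res w P t.1) (min (res w P t.2.1) (res w P t.2.2))

/-- Pay on a triple. -/
def step (w : ℕ × ℕ) (P : List (Tri × ℕ)) (t : Tri) : List (Tri × ℕ) := (t, del w P t) :: P

/-- Pay on all triples, one after the other. -/
def run (w : ℕ × ℕ) (L : List Tri) : List (Tri × ℕ) := L.foldl (step w) []

theorem paid_cons (t : Tri) (d : ℕ) (P : List (Tri × ℕ)) (x : El) :
    paid ((t, d) :: P) x = (if has t x = true then d else 0) + paid P x := by
  unfold paid
  by_cases h : has t x = true
  · simp [h]
  · simp [h]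

theorem del_le (w : ℕ × ℕ) (P : List (Tri × ℕ)) (t : Tri) (x : El) (h : has t x = true) :
    del w P t ≤ res w P x := by
  simp only [has, Bool.or_eq_true, decide_eq_true_eq] at h
  unfold del
  rcases h with h | h | h
  · rw [h]; exact min_le_left _ _
  · rw [h]; exact (min_le_right _ _).trans (min_le_left _ _)
  · rw [h]; exact (min_le_right _ _).trans (min_le_right _ _)

theorem exists_del_eq (w : ℕ × ℕ) (P : List (Tri × ℕ)) (t : Tri) :
    ∃ x, has t x = true ∧ del w P t = res w P x := by
  unfold del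
  rcases min_choice (res w P t.1) (min (res w P t.2.1) (res w P t.2.2)) with h | h
  · exact ⟨t.1, by simp [has], h⟩
  · rcases min_choice (res w P t.2.1) (res w P t.2.2) with h' | h'
    · exact ⟨t.2.1, by simp [has], h.trans h'⟩
    · exact ⟨t.2.2, by simp [has], h.trans h'⟩

theorem step_le (w : ℕ × ℕ) (P : List (Tri × ℕ)) (t : Tri) (hP : ∀ x, paid P x ≤ wt w x) (x : El) :
    paid (step w P t) x ≤ wt w x := by
  unfold step
  rw [paid_cons]
  have h1 := hP x
  split_ifs with h
  · have h2 := del_le w P t x h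
    unfold res at h2
    omega
  · omega

theorem foldl_le (w : ℕ × ℕ) : ∀ (L : List Tri) (P : List (Tri × ℕ)), (∀ x, paid P x ≤ wt w x) →
    ∀ x, paid (L.foldl (step w) P) x ≤ wt w x
  | [], _, hP, x => hP x
  | t :: L, P, hP, x => foldl_le w L (step w P t) (step_le w P t hP) x

theorem run_le (w : ℕ × ℕ) (L : List Tri) (x : El) : paid (run w L) x ≤ wt w x :=
  foldl_le w L [] (fun x => by simp [paid]) x

theorem foldl_mono (w : ℕ × ℕ) : ∀ (L : List Tri) (P : List (Tri × ℕ)) (x : El),
    paid P x ≤ paid (L.foldl (step w) P) x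
  | [], _, _ => le_rfl
  | t :: L, P, x => by
    refine le_trans ?_ (foldl_mono w L (step w P t) x)
    unfold step
    rw [paid_cons]
    omega

theorem foldl_hit (w : ℕ × ℕ) : ∀ (L : List Tri) (P : List (Tri × ℕ)), (∀ x, paid P x ≤ wt w x) →
    ∀ t ∈ L, ∃ x, has t x = true ∧ paid (L.foldl (step w) P) x = wt w x
  | [], _, _, t, ht => by simp at ht
  | s :: L, P, hP, t, ht => by
    rcases List.mem_cons.1 ht with rfl | ht
    · obtain ⟨x, hx, hd⟩ := exists_del_eq w P t
      refine ⟨x, hx, le_antisymm (foldl_le w (t :: L) P hP x) ?_⟩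
      refine le_trans ?_ (foldl_mono w L (step w P t) x)
      unfold step
      rw [paid_cons, if_pos hx, hd]
      unfold res
      omega
    · exact foldl_hit w L (step w P s) (step_le w P s hP) t ht

theorem run_hit (w : ℕ × ℕ) (L : List Tri) (t : Tri) (ht : t ∈ L) :
    ∃ x, has t x = true ∧ paid (run w L) x = wt w x :=
  foldl_hit w L [] (fun x => by simp [paid]) t ht

theorem foldl_mem (w : ℕ × ℕ) : ∀ (L : List Tri) (P : List (Tri × ℕ)),
    ∀ p ∈ L.foldl (step w) P, p ∈ P ∨ p.1 ∈ L
  | [], _, p, hp => Or.inl hp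
  | t :: L, P, p, hp => by
    rcases foldl_mem w L (step w P t) p hp with h | h
    · rcases List.mem_cons.1 h with rfl | h
      · exact Or.inr (by simp)
      · exact Or.inl h
    · exact Or.inr (List.mem_cons_of_mem _ h)

theorem run_mem (w : ℕ × ℕ) (L : List Tri) (p : Tri × ℕ) (hp : p ∈ run w L) : p.1 ∈ L := by
  rcases foldl_mem w L [] p hp with h | h
  · simp at h
  · exact h

/-- The total payment. -/
def tot (P : List (Tri × ℕ)) : ℕ := (P.map Prod.snd).sum

/-- Dual feasibility: the total payment is at most the price of any hitting set. -/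
theorem tot_le_paid (Hs : Finset El) : ∀ P : List (Tri × ℕ),
    (∀ p ∈ P, ∃ x ∈ Hs, has p.1 x = true) → tot P ≤ ∑ x ∈ Hs, paid P x
  | [], _ => by simp [tot]
  | (t, d) :: P, h => by
    have h1 := tot_le_paid Hs P (fun p hp => h p (List.mem_cons_of_mem _ hp))
    obtain ⟨x, hx, hxt⟩ := h (t, d) (by simp)
    have h2 : ∑ x ∈ Hs, paid ((t, d) :: P) x =
        ∑ x ∈ Hs, (if has t x = true then d else 0) + ∑ x ∈ Hs, paid P x := by
      rw [← Finset.sum_add_distrib]
      exact Finset.sum_congr rfl fun x _ => paid_cons t d P x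
    have h3 : d ≤ ∑ x ∈ Hs, (if has t x = true then d else 0) := by
      have := Finset.single_le_sum (f := fun x => if has t x = true then d else 0)
        (fun _ _ => Nat.zero_le _) hx
      simpa [hxt] using this
    have h4 : tot ((t, d) :: P) = d + tot P := by simp [tot]
    omega

theorem tot_run_le (w : ℕ × ℕ) (L : List Tri) (Hs : Finset El)
    (h : ∀ t ∈ L, ∃ x ∈ Hs, has t x = true) : tot (run w L) ≤ ∑ x ∈ Hs, wt w x :=
  (tot_le_paid Hs _ fun p hp => h _ (run_mem w L p hp)).trans
    (Finset.sum_le_sum fun x _ => run_le w L x)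

/-- Every payment is shared by at most three elements. -/
theorem sum_paid_le (H : Finset El) : ∀ P : List (Tri × ℕ), ∑ x ∈ H, paid P x ≤ 3 * tot P
  | [] => by simp [tot, paid]
  | (t, d) :: P => by
    have h1 := sum_paid_le H P
    have h2 : ∑ x ∈ H, paid ((t, d) :: P) x =
        ∑ x ∈ H, (if has t x = true then d else 0) + ∑ x ∈ H, paid P x := by
      rw [← Finset.sum_add_distrib]
      exact Finset.sum_congr rfl fun x _ => paid_cons t d P x
    have h3 : ∑ x ∈ H, (if has t x = true then d else 0) ≤ 3 * d := by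
      rw [← Finset.sum_filter, Finset.sum_const, smul_eq_mul]
      refine Nat.mul_le_mul_right _ ?_
      have : H.filter (fun x => has t x = true) ⊆ {t.1, t.2.1, t.2.2} := by
        intro x hx
        have := (Finset.mem_filter.1 hx).2
        simpa [has] using this
      exact (Finset.card_le_card this).trans Finset.card_le_three
    have h4 : tot ((t, d) :: P) = d + tot P := by simp [tot]
    omega

theorem paid_le_tot (P : List (Tri × ℕ)) (x : El) : paid P x ≤ tot P := by
  unfold paid tot
  exact List.Sublist.sum_le_sum ((List.filter_sublist).map _) (fun _ _ => Nat.zero_le _)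

/-! ### The algorithm -/

/-- The triples to be hit: two hyperedges of different colours through the node `v`, together with
the pair of `v` and the colour of the first hyperedge. -/
def tris (I : Inst) : List Tri :=
  (edges I).zipIdx.flatMap fun e => (edges I).zipIdx.flatMap fun f =>
    if e.1.1 = f.1.1 then [] else
      (e.1.2.filter (fun v => decide (v ∈ f.1.2))).map fun v =>
        (Sum.inl e.2, Sum.inl f.2, Sum.inr (v, e.1.1))

theorem mem_tris {I : Inst} {t : Tri} : t ∈ tris I ↔ ∃ (e f : (ℕ × List ℕ)) (i j v : ℕ),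
    (e, i) ∈ (edges I).zipIdx ∧ (f, j) ∈ (edges I).zipIdx ∧ e.1 ≠ f.1 ∧ v ∈ e.2 ∧ v ∈ f.2 ∧
      t = (Sum.inl i, Sum.inl j, Sum.inr (v, e.1)) := by
  unfold tris
  simp only [List.mem_flatMap]
  constructor
  · rintro ⟨⟨e, i⟩, he, ⟨f, j⟩, hf, ht⟩
    split_ifs at ht with h
    · simp at ht
    · simp only [List.mem_map, List.mem_filter, decide_eq_true_eq] at ht
      obtain ⟨v, ⟨hv, hv'⟩, rfl⟩ := ht
      exact ⟨e, f, i, j, v, he, hf, h, hv, hv', rfl⟩
  · rintro ⟨e, f, i, j, v, he, hf, h, hv, hv', rfl⟩
    refine ⟨(e, i), he, (f, j), hf, ?_⟩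
    rw [if_neg h]
    simp only [List.mem_map, List.mem_filter, decide_eq_true_eq]
    exact ⟨v, ⟨hv, hv'⟩, rfl⟩

/-- The hyperedges (with their indices) that are not bought. -/
def surv (I : Inst) (w : ℕ × ℕ) : List ((ℕ × List ℕ) × ℕ) :=
  (edges I).zipIdx.filter (fun e => !(decide (paid (run w (tris I)) (Sum.inl e.2) = w.1)))

/-- The pairs (node, colour) forced by the hyperedges that are not bought. -/
def pairs (I : Inst) (w : ℕ × ℕ) : List (ℕ × ℕ) :=
  (surv I w).flatMap fun e => e.1.2.map fun v => (v, e.1.1)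

/-- The first colour. -/
def col0 (I : Inst) : ℕ := (colours I).head?.getD 0

/-- The output for the prices `w`. -/
def out (I : Inst) (w : ℕ × ℕ) : List (ℕ × ℕ) :=
  pairs I w ++ ((nodes I).filter (fun v => !(pairs I w).any fun p => decide (p.1 = v))).map
    fun v => (v, col0 I)

theorem mem_decode {o : List (ℕ × ℕ)} {v c : ℕ} : c ∈ decode o v ↔ (v, c) ∈ o := by
  simp only [decode, List.mem_toFinset, List.mem_map, List.mem_filter, decide_eq_true_eq]
  constructor
  · rintro ⟨⟨a, b⟩, ⟨h, rfl⟩, rfl⟩
    exact h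
  · intro h
    exact ⟨(v, c), ⟨h, rfl⟩, rfl⟩

theorem mem_pairs {I : Inst} {w : ℕ × ℕ} {v c : ℕ} : (v, c) ∈ pairs I w ↔
    ∃ (l : List ℕ) (i : ℕ), ((c, l), i) ∈ (edges I).zipIdx ∧
      paid (run w (tris I)) (Sum.inl i) ≠ w.1 ∧ v ∈ l := by
  unfold pairs surv
  simp only [List.mem_flatMap, List.mem_filter, List.mem_map, Bool.not_eq_true',
    decide_eq_false_iff_not, Prod.mk.injEq]
  constructor
  · rintro ⟨⟨⟨c', l⟩, i⟩, ⟨h1, h2⟩, v', hv', rfl, rfl⟩
    exact ⟨l, i, h1, h2, hv'⟩
  · rintro ⟨l, i, h1, h2, h3⟩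
    exact ⟨((c, l), i), ⟨h1, h2⟩, v, h3, rfl, rfl⟩

theorem mem_out {I : Inst} {w : ℕ × ℕ} {v c : ℕ} : (v, c) ∈ out I w ↔
    (v, c) ∈ pairs I w ∨ (v ∈ nodes I ∧ (∀ c', (v, c') ∉ pairs I w) ∧ c = col0 I) := by
  unfold out
  simp only [List.mem_append, List.mem_map, List.mem_filter, Prod.mk.injEq, Bool.not_eq_true',
    List.any_eq_false, decide_eq_true_eq]
  constructor
  · rintro (h | ⟨v', ⟨h1, h2⟩, rfl, rfl⟩)
    · exact Or.inl h
    · refine Or.inr ⟨h1, fun c' hc' => h2 _ hc' rfl, rfl⟩
  · rintro (h | ⟨h1, h2, rfl⟩)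
    · exact Or.inl h
    · refine Or.inr ⟨v, ⟨h1, ?_⟩, rfl, rfl⟩
      rintro ⟨a, b⟩ hab rfl
      exact h2 b hab

theorem col0_mem {I : Inst} (hI : Valid I) : col0 I ∈ colours I := by
  unfold col0
  obtain ⟨_, _, h, _⟩ := hI
  cases hc : colours I with
  | nil => exact absurd hc h
  | cons a l => simp

theorem mem_zipIdx_edges {I : Inst} {e : ℕ × List ℕ} {i : ℕ} (h : (e, i) ∈ (edges I).zipIdx) :
    e ∈ edges I := by
  rw [List.mem_zipIdx_iff_getElem?] at h
  exact List.mem_of_getElem? h

theorem out_isAssignment {I : Inst} (hI : Valid I) (w : ℕ × ℕ) :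
    IsAssignment I (decode (out I w)) := by
  intro v hv
  constructor
  · by_cases h : ∃ c', (v, c') ∈ pairs I w
    · obtain ⟨c', hc'⟩ := h
      exact ⟨c', mem_decode.2 (mem_out.2 (Or.inl hc'))⟩
    · push Not at h
      exact ⟨col0 I, mem_decode.2 (mem_out.2 (Or.inr ⟨hv, h, rfl⟩))⟩
  · intro c hc
    rcases mem_out.1 (mem_decode.1 hc) with h | ⟨_, _, rfl⟩
    · obtain ⟨l, i, h1, _, _⟩ := mem_pairs.1 h
      exact (hI.2.2.2 _ (mem_zipIdx_edges h1)).1
    · exact col0_mem hI

/-! ### Analysis -/

/-- The bought hyperedges and the bought pairs. -/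
def bought (I : Inst) (w : ℕ × ℕ) : Finset El :=
  ((Finset.range (edges I).length).filter
    (fun i => paid (run w (tris I)) (Sum.inl i) = w.1)).disjSum
  (((nodes I).toFinset ×ˢ (colours I).toFinset).filter
    (fun p => paid (run w (tris I)) (Sum.inr p) = w.2))

theorem mistakes_out_le (I : Inst) (w : ℕ × ℕ) : mistakes I (decode (out I w)) ≤
    ((Finset.range (edges I).length).filter
      (fun i => paid (run w (tris I)) (Sum.inl i) = w.1)).card := by
  classical
  unfold mistakes
  have h1 : (edges I).countP (fun e => ¬ ∀ v ∈ e.2, e.1 ∈ decode (out I w) v) =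
      (edges I).zipIdx.countP (fun e => ¬ ∀ v ∈ e.1.2, e.1.1 ∈ decode (out I w) v) := by
    conv_lhs => rw [← List.zipIdx_map_fst 0 (edges I)]
    rw [List.countP_map]
    rfl
  have h2 : (edges I).zipIdx.countP (fun e => ¬ ∀ v ∈ e.1.2, e.1.1 ∈ decode (out I w) v) ≤
      (edges I).zipIdx.countP (fun e => decide (paid (run w (tris I)) (Sum.inl e.2) = w.1)) := by
    refine List.countP_mono_left ?_
    rintro ⟨⟨c, l⟩, i⟩ he hm
    simp only [decide_eq_true_eq] at hm ⊢
    by_contra hne
    apply hm
    intro v hv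
    exact mem_decode.2 (mem_out.2 (Or.inl (mem_pairs.2 ⟨l, i, he, hne, hv⟩)))
  have h3 : (edges I).zipIdx.countP
      (fun e => decide (paid (run w (tris I)) (Sum.inl e.2) = w.1)) =
      (List.range (edges I).length).countP
        (fun i => decide (paid (run w (tris I)) (Sum.inl i) = w.1)) := by
    rw [List.range_eq_range', ← List.zipIdx_map_snd 0 (edges I), List.countP_map]
    rfl
  rw [h1]
  refine h2.trans (h3.trans ?_).le
  rw [List.countP_eq_length_filter]
  rfl

theorem extra_out_le {I : Inst} (hI : Valid I) (w : ℕ × ℕ) : extra I (decode (out I w)) ≤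
    (((nodes I).toFinset ×ˢ (colours I).toFinset).filter
      (fun p => paid (run w (tris I)) (Sum.inr p) = w.2)).card := by
  classical
  rw [Finset.card_filter, Finset.sum_product]
  unfold extra
  refine Finset.sum_le_sum fun v hv => ?_
  rw [← Finset.card_filter]
  by_cases h : (decode (out I w) v).card ≤ 1
  · omega
  · refine (Nat.sub_le _ _).trans (Finset.card_le_card ?_)
    intro c hc
    have hv' : v ∈ nodes I := List.mem_toFinset.1 hv
    have hcol : c ∈ colours I := (out_isAssignment hI w v hv').2 c hc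
    rw [Finset.mem_filter, List.mem_toFinset]
    refine ⟨hcol, ?_⟩
    -- another colour
    obtain ⟨c', hc', hne⟩ : ∃ c' ∈ decode (out I w) v, c' ≠ c := by
      by_contra hcon
      push Not at hcon
      apply h
      rw [Finset.card_le_one]
      intro a ha b hb
      rw [hcon a ha, hcon b hb]
    have hp : ∃ c'', (v, c'') ∈ pairs I w := by
      rcases mem_out.1 (mem_decode.1 hc) with h1 | ⟨_, _, h1⟩
      · exact ⟨c, h1⟩
      · rcases mem_out.1 (mem_decode.1 hc') with h2 | ⟨_, _, h2⟩
        · exact ⟨c', h2⟩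
        · exact absurd (h2.trans h1.symm) hne
    have hP : ∀ a ∈ decode (out I w) v, (v, a) ∈ pairs I w := by
      intro a ha
      rcases mem_out.1 (mem_decode.1 ha) with h1 | ⟨_, h1, _⟩
      · exact h1
      · obtain ⟨c'', h2⟩ := hp
        exact absurd h2 (h1 c'')
    obtain ⟨l, i, h1, h2, h3⟩ := mem_pairs.1 (hP c hc)
    obtain ⟨l', j, h1', h2', h3'⟩ := mem_pairs.1 (hP c' hc')
    have ht : ((Sum.inl i, Sum.inl j, Sum.inr (v, c)) : Tri) ∈ tris I :=
      mem_tris.2 ⟨(c, l), (c', l'), i, j, v, h1, h1', fun h => hne h.symm, h3, h3', rfl⟩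
    obtain ⟨x, hx, hpx⟩ := run_hit w (tris I) _ ht
    simp only [has, Bool.or_eq_true, decide_eq_true_eq] at hx
    rcases hx with rfl | rfl | rfl
    · exact absurd hpx h2
    · exact absurd hpx h2'
    · exact hpx

theorem bought_le (I : Inst) (w : ℕ × ℕ) :
    w.1 * ((Finset.range (edges I).length).filter
      (fun i => paid (run w (tris I)) (Sum.inl i) = w.1)).card +
    w.2 * (((nodes I).toFinset ×ˢ (colours I).toFinset).filter
      (fun p => paid (run w (tris I)) (Sum.inr p) = w.2)).card ≤ 3 * tot (run w (tris I)) := by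
  refine le_trans (le_of_eq ?_) (sum_paid_le (bought I w) (run w (tris I)))
  unfold bought
  rw [Finset.sum_disjSum]
  congr 1
  · rw [Finset.sum_congr rfl (g := fun _ => w.1) (fun i hi => (Finset.mem_filter.1 hi).2),
      Finset.sum_const, smul_eq_mul, mul_comm]
  · rw [Finset.sum_congr rfl (g := fun _ => w.2) (fun i hi => (Finset.mem_filter.1 hi).2),
      Finset.sum_const, smul_eq_mul, mul_comm]

/-- The hitting set of an assignment: its mistakes, and the pairs of the nodes having at least two
colours. -/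
def hit (I : Inst) (S : ℕ → Finset ℕ) : Finset El :=
  (((edges I).zipIdx.filter (fun e => ¬ ∀ v ∈ e.1.2, e.1.1 ∈ S v)).map Prod.snd).toFinset.disjSum
  (((nodes I).toFinset ×ˢ (colours I).toFinset).filter
    (fun p => 2 ≤ (S p.1).card ∧ p.2 ∈ S p.1))

theorem hit_hits {I : Inst} (hI : Valid I) (S : ℕ → Finset ℕ) (t : Tri) (ht : t ∈ tris I) :
    ∃ x ∈ hit I S, has t x = true := by
  classical
  obtain ⟨e, f, i, j, v, he, hf, hne, hve, hvf, rfl⟩ := mem_tris.1 ht
  by_cases h1 : ∀ v ∈ e.2, e.1 ∈ S v
  · by_cases h2 : ∀ v ∈ f.2, f.1 ∈ S v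
    · refine ⟨Sum.inr (v, e.1), ?_, by simp [has]⟩
      unfold hit
      rw [Finset.inr_mem_disjSum, Finset.mem_filter, Finset.mem_product]
      refine ⟨⟨?_, ?_⟩, ?_, h1 v hve⟩
      · exact List.mem_toFinset.2 ((hI.2.2.2 _ (mem_zipIdx_edges he)).2.2 v hve)
      · exact List.mem_toFinset.2 (hI.2.2.2 _ (mem_zipIdx_edges he)).1
      · change 1 < (S v).card
        rw [Finset.one_lt_card]
        exact ⟨e.1, h1 v hve, f.1, h2 v hvf, hne⟩
    · refine ⟨Sum.inl j, ?_, by simp [has]⟩
      unfold hit
      rw [Finset.inl_mem_disjSum, List.mem_toFinset, List.mem_map]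
      exact ⟨(f, j), List.mem_filter.2 ⟨hf, by simpa using h2⟩, rfl⟩
  · refine ⟨Sum.inl i, ?_, by simp [has]⟩
    unfold hit
    rw [Finset.inl_mem_disjSum, List.mem_toFinset, List.mem_map]
    exact ⟨(e, i), List.mem_filter.2 ⟨he, by simpa using h1⟩, rfl⟩

theorem hit_price (I : Inst) (w : ℕ × ℕ) (S : ℕ → Finset ℕ) :
    ∑ x ∈ hit I S, wt w x ≤ w.1 * mistakes I S + w.2 * (2 * extra I S) := by
  classical
  unfold hit
  rw [Finset.sum_disjSum]
  refine Nat.add_le_add ?_ ?_
  · simp only [wt, Sum.elim_inl, Finset.sum_const, smul_eq_mul]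
    rw [mul_comm]
    refine Nat.mul_le_mul_left _ ((List.toFinset_card_le _).trans ?_)
    rw [List.length_map, ← List.countP_eq_length_filter]
    unfold mistakes
    conv_rhs => rw [← List.zipIdx_map_fst 0 (edges I)]
    rw [List.countP_map]
    exact le_of_eq rfl
  · simp only [wt, Sum.elim_inr, Finset.sum_const, smul_eq_mul]
    rw [mul_comm]
    refine Nat.mul_le_mul_left _ ?_
    rw [Finset.card_filter, Finset.sum_product]
    unfold extra
    rw [Finset.mul_sum]
    refine Finset.sum_le_sum fun v _ => ?_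
    rw [← Finset.card_filter]
    change ((colours I).toFinset.filter (fun c => 2 ≤ (S v).card ∧ c ∈ S v)).card ≤
      2 * ((S v).card - 1)
    by_cases h : 2 ≤ (S v).card
    · have : ((colours I).toFinset.filter (fun c => 2 ≤ (S v).card ∧ c ∈ S v)) ⊆ S v := by
        intro c hc
        exact (Finset.mem_filter.1 hc).2.2
      have := Finset.card_le_card this
      omega
    · have : ((colours I).toFinset.filter (fun c => 2 ≤ (S v).card ∧ c ∈ S v)) = ∅ := by
        rw [Finset.filter_eq_empty_iff]
        intro c _ hc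
        exact h hc.1
      rw [this]
      simp

/-- The main estimate on the output for the prices `w`, compared with any assignment `S`. -/
theorem key {I : Inst} (hI : Valid I) (w : ℕ × ℕ) (S : ℕ → Finset ℕ) :
    ∃ D : ℕ, D ≤ w.1 * mistakes I S + w.2 * (2 * extra I S) ∧
      w.1 * mistakes I (decode (out I w)) + w.2 * extra I (decode (out I w)) ≤ 3 * D ∧
      (D < w.1 → mistakes I (decode (out I w)) = 0) ∧
      (D < w.2 → extra I (decode (out I w)) = 0) := by
  have h1 := mistakes_out_le I w
  have h2 := extra_out_le hI w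
  refine ⟨tot (run w (tris I)), ?_, ?_, ?_, ?_⟩
  · exact (tot_run_le w _ _ (hit_hits hI S)).trans (hit_price I w S)
  · refine le_trans ?_ (bought_le I w)
    exact Nat.add_le_add (Nat.mul_le_mul_left _ h1) (Nat.mul_le_mul_left _ h2)
  · intro hD
    have : ((Finset.range (edges I).length).filter
      (fun i => paid (run w (tris I)) (Sum.inl i) = w.1)) = ∅ := by
      rw [Finset.filter_eq_empty_iff]
      intro i _ h
      have := paid_le_tot (run w (tris I)) (Sum.inl i)
      omega
    rw [this, Finset.card_empty] at h1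
    omega
  · intro hD
    have : (((nodes I).toFinset ×ˢ (colours I).toFinset).filter
      (fun p => paid (run w (tris I)) (Sum.inr p) = w.2)) = ∅ := by
      rw [Finset.filter_eq_empty_iff]
      intro i _ h
      have := paid_le_tot (run w (tris I)) (Sum.inr i)
      omega
    rw [this, Finset.card_empty] at h2
    omega

/-! ### Choosing the best price -/

/-- The number of extra colours of an output, computed on lists. -/
def extraC (I : Inst) (o : List (ℕ × ℕ)) : ℕ :=
  ((nodes I).map fun v => ((colours I).filter (fun c => decide ((v, c) ∈ o))).length - 1).sum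

/-- The number of mistakes of an output, computed on lists. -/
def mistC (I : Inst) (o : List (ℕ × ℕ)) : ℕ :=
  ((edges I).filter fun e => !(e.2.all fun v => decide ((v, e.1) ∈ o))).length

theorem extraC_eq {I : Inst} (hI : Valid I) (o : List (ℕ × ℕ)) (ho : IsAssignment I (decode o)) :
    extraC I o = extra I (decode o) := by
  unfold extraC extra
  rw [List.sum_toFinset _ hI.1]
  congr 1
  refine List.map_congr_left fun v hv => ?_
  congr 1
  rw [← List.toFinset_card_of_nodup (hI.2.1.filter _)]
  congr 1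
  ext c
  rw [List.mem_toFinset, List.mem_filter, decide_eq_true_eq, mem_decode]
  exact ⟨fun h => h.2, fun h => ⟨(ho v hv).2 c (mem_decode.2 h), h⟩⟩

theorem mistC_eq (I : Inst) (o : List (ℕ × ℕ)) : mistC I o = mistakes I (decode o) := by
  classical
  unfold mistC mistakes
  rw [← List.countP_eq_length_filter]
  refine List.countP_congr fun e _ => ?_
  simp only [Bool.not_eq_true', List.all_eq_false, decide_eq_true_eq, mem_decode]
  push Not
  rfl

/-- The prices that are tried. -/
def cands (I : Inst) : List (ℕ × ℕ) :=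
  (2 * budget I + 1, 1) :: (1, (edges I).length + 1) ::
    (List.range ((edges I).length + 1)).map fun k => (budget I, k)

/-- The outputs that nearly respect the budget. -/
def good (I : Inst) : List (List (ℕ × ℕ)) :=
  ((cands I).map (out I)).filter fun o => decide (extraC I o ≤ 9 * budget I)

/-- The algorithm. -/
def alg (I : Inst) : List (ℕ × ℕ) :=
  ((good I).filter (fun o => (good I).all fun o' => decide (mistC I o ≤ mistC I o'))).head?.getD []

theorem exists_min_list {α : Type} (f : α → ℕ) : ∀ l : List α, l ≠ [] → ∃ a ∈ l, ∀ b ∈ l, f a ≤ f b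
  | [], h => absurd rfl h
  | [a], _ => ⟨a, by simp, by simp⟩
  | a :: b :: l, _ => by
    obtain ⟨c, hc, hm⟩ := exists_min_list f (b :: l) (by simp)
    by_cases h : f a ≤ f c
    · refine ⟨a, by simp, fun d hd => ?_⟩
      rcases List.mem_cons.1 hd with rfl | hd
      · exact le_rfl
      · exact h.trans (hm d hd)
    · refine ⟨c, List.mem_cons_of_mem _ hc, fun d hd => ?_⟩
      rcases List.mem_cons.1 hd with rfl | hd
      · omega
      · exact hm d hd

/-- If some tried price is good, the algorithm returns a good output with the least number of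
mistakes. -/
theorem alg_spec (I : Inst) (h : good I ≠ []) :
    alg I ∈ good I ∧ ∀ o ∈ good I, mistC I (alg I) ≤ mistC I o := by
  obtain ⟨a, ha, hm⟩ := exists_min_list (mistC I) (good I) h
  have hmem : a ∈ (good I).filter
      (fun o => (good I).all fun o' => decide (mistC I o ≤ mistC I o')) := by
    rw [List.mem_filter, List.all_eq_true]
    exact ⟨ha, fun b hb => by simpa using hm b hb⟩
  have h2 : alg I ∈ (good I).filter
      (fun o => (good I).all fun o' => decide (mistC I o ≤ mistC I o')) := by
    unfold alg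
    cases hl : (good I).filter
      (fun o => (good I).all fun o' => decide (mistC I o ≤ mistC I o')) with
    | nil => rw [hl] at hmem; simp at hmem
    | cons x l => simp
  rw [List.mem_filter, List.all_eq_true] at h2
  exact ⟨h2.1, fun o ho => by simpa using h2.2 o ho⟩

theorem mistakes_le_length (I : Inst) (S : ℕ → Finset ℕ) : mistakes I S ≤ (edges I).length :=
  List.countP_le_length

/-- One of the tried prices gives a good output with few mistakes. -/
theorem exists_good {I : Inst} (hI : Valid I) (S : ℕ → Finset ℕ) (hb : extra I S ≤ budget I) :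
    ∃ o ∈ good I, mistC I o ≤ 9 * mistakes I S := by
  have hgood : ∀ w ∈ cands I, extra I (decode (out I w)) ≤ 9 * budget I → out I w ∈ good I := by
    intro w hw he
    unfold good
    rw [List.mem_filter, decide_eq_true_eq, extraC_eq hI _ (out_isAssignment hI w)]
    exact ⟨List.mem_map_of_mem hw, he⟩
  have hlen := mistakes_le_length I S
  by_cases hm : mistakes I S = 0
  · obtain ⟨D, h1, h2, h3, h4⟩ := key hI (2 * budget I + 1, 1) S
    simp only [hm, mul_zero, zero_add, one_mul] at h1 h2 h3
    have h5 : D < 2 * budget I + 1 := by omega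
    have h6 := h3 h5
    rw [h6] at h2
    refine ⟨_, hgood (2 * budget I + 1, 1) (by simp [cands]) (by omega), ?_⟩
    rw [mistC_eq, h6]
    omega
  by_cases hb0 : budget I = 0
  · have he : extra I S = 0 := by omega
    obtain ⟨D, h1, h2, h3, h4⟩ := key hI (1, (edges I).length + 1) S
    simp only [he, mul_zero, add_zero, one_mul] at h1 h2 h4
    have h6 := h4 (by omega)
    rw [h6] at h2
    refine ⟨_, hgood (1, (edges I).length + 1) (by simp [cands]) (by omega), ?_⟩
    rw [mistC_eq]
    omega
  · obtain ⟨D, h1, h2, h3, h4⟩ := key hI (budget I, mistakes I S) S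
    simp only at h1 h2 h3 h4
    have hD : D ≤ 3 * (budget I * mistakes I S) := by
      have : mistakes I S * (2 * extra I S) ≤ mistakes I S * (2 * budget I) :=
        Nat.mul_le_mul_left _ (by omega)
      nlinarith
    have hmem : (budget I, mistakes I S) ∈ cands I := by
      unfold cands
      refine List.mem_cons_of_mem _ (List.mem_cons_of_mem _ ?_)
      rw [List.mem_map]
      exact ⟨mistakes I S, by rw [List.mem_range]; omega, rfl⟩
    have h5 : extra I (decode (out I (budget I, mistakes I S))) ≤ 9 * budget I := by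
      have : mistakes I S * extra I (decode (out I (budget I, mistakes I S))) ≤
          mistakes I S * (9 * budget I) := by nlinarith
      exact Nat.le_of_mul_le_mul_left this (Nat.pos_of_ne_zero hm)
    have h6 : mistakes I (decode (out I (budget I, mistakes I S))) ≤ 9 * mistakes I S := by
      have : budget I * mistakes I (decode (out I (budget I, mistakes I S))) ≤
          budget I * (9 * mistakes I S) := by nlinarith
      exact Nat.le_of_mul_le_mul_left this (Nat.pos_of_ne_zero hb0)
    refine ⟨_, hgood _ hmem h5, ?_⟩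
    rw [mistC_eq]
    exact h6

theorem opt_attained {I : Inst} (hI : Valid I) :
    ∃ S, IsAssignment I S ∧ extra I S ≤ budget I ∧ mistakes I S = opt I := by
  have : opt I ∈ {m | ∃ S, IsAssignment I S ∧ extra I S ≤ budget I ∧ mistakes I S = m} := by
    apply Nat.sInf_mem
    refine ⟨mistakes I (fun _ => {col0 I}), fun _ => {col0 I}, ?_, ?_, rfl⟩
    · intro v _
      refine ⟨Finset.singleton_nonempty _, fun c hc => ?_⟩
      rw [Finset.mem_singleton.1 hc]
      exact col0_mem hI
    · simp [extra]
  exact this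

theorem alg_bicriteria : Bicriteria 9 9 alg := by
  intro I hI
  obtain ⟨S, hS, hb, hm⟩ := opt_attained hI
  obtain ⟨o, ho, hom⟩ := exists_good hI S hb
  obtain ⟨h1, h2⟩ := alg_spec I (List.ne_nil_of_mem ho)
  have h3 := h2 o ho
  unfold good at h1
  rw [List.mem_filter, decide_eq_true_eq, List.mem_map] at h1
  obtain ⟨⟨w, hw, hwo⟩, h4⟩ := h1
  have h5 : IsAssignment I (decode (alg I)) := by
    rw [← hwo]
    exact out_isAssignment hI w
  rw [extraC_eq hI _ h5] at h4
  rw [mistC_eq, mistC_eq] at h3
  rw [mistC_eq] at hom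
  refine ⟨h5, by exact_mod_cast h4, ?_⟩
  rw [← hm]
  have : mistakes I (decode (alg I)) ≤ 9 * mistakes I S := h3.trans hom
  exact_mod_cast this

/-! ### The algorithm runs in polynomial time -/

section PolyTime

variable {α : Type} [TEnc α]

theorem poly_nodes {f : α → Inst} (hf : Poly f) : Poly (fun a => nodes (f a)) :=
  Poly.fst (Poly.fst hf)

theorem poly_colours {f : α → Inst} (hf : Poly f) : Poly (fun a => colours (f a)) :=
  Poly.snd (Poly.fst hf)

theorem poly_edges {f : α → Inst} (hf : Poly f) : Poly (fun a => edges (f a)) :=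
  Poly.fst (Poly.snd hf)

theorem poly_budget {f : α → Inst} (hf : Poly f) : Poly (fun a => budget (f a)) :=
  Poly.snd (Poly.snd hf)

theorem poly_has {t : α → Tri} {x : α → El} (ht : Poly t) (hx : Poly x) :
    Poly (fun a => has (t a) (x a)) :=
  Poly.or (Poly.decide_eq hx (Poly.fst ht))
    (Poly.or (Poly.decide_eq hx (Poly.fst (Poly.snd ht)))
      (Poly.decide_eq hx (Poly.snd (Poly.snd ht))))

theorem poly_paid {P : α → List (Tri × ℕ)} {x : α → El} (hP : Poly P) (hx : Poly x) :
    Poly (fun a => paid (P a) (x a)) :=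
  Poly.sum (NPC.Poly.map (F := fun _ p => Prod.snd p)
    (Poly.filter (p := fun a p => has p.1 (x a)) hP
      (poly_has (Poly.fst (Poly.snd Poly.id)) (hx.comp (Poly.fst Poly.id))))
    (Poly.snd (Poly.snd Poly.id)))

theorem poly_wt {w : α → ℕ × ℕ} {x : α → El} (hw : Poly w) (hx : Poly x) :
    Poly (fun a => wt (w a) (x a)) := by
  refine (Poly.sumCases (o := x) (g := fun a _ => (w a).1) (h := fun a _ => (w a).2) hx
    (Poly.fst (hw.comp (Poly.fst Poly.id))) (Poly.snd (hw.comp (Poly.fst Poly.id)))).congr ?_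
  intro a
  unfold wt
  cases x a <;> rfl

theorem poly_res {w : α → ℕ × ℕ} {P : α → List (Tri × ℕ)} {x : α → El} (hw : Poly w) (hP : Poly P)
    (hx : Poly x) : Poly (fun a => res (w a) (P a) (x a)) :=
  Poly.sub (poly_wt hw hx) (poly_paid hP hx)

theorem poly_del {w : α → ℕ × ℕ} {P : α → List (Tri × ℕ)} {t : α → Tri} (hw : Poly w) (hP : Poly P)
    (ht : Poly t) : Poly (fun a => del (w a) (P a) (t a)) :=
  Poly.min (poly_res hw hP (Poly.fst ht))
    (Poly.min (poly_res hw hP (Poly.fst (Poly.snd ht))) (poly_res hw hP (Poly.snd (Poly.snd ht))))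

theorem del_le_add (w : ℕ × ℕ) (P : List (Tri × ℕ)) (t : Tri) : del w P t ≤ w.1 + w.2 := by
  have h1 : res w P t.1 ≤ wt w t.1 := Nat.sub_le _ _
  have h2 : wt w t.1 ≤ w.1 + w.2 := by
    unfold wt
    cases t.1 <;> simp
  exact ((min_le_left _ _).trans h1).trans h2

theorem foldl_step_bound (w : ℕ × ℕ) : ∀ (L : List Tri) (P : List (Tri × ℕ)),
    sz (L.foldl (step w) P) ≤ sz P + L.length * (sz L + 2 * sz (w.1 + w.2) + 2)
  | [], P => by simp
  | t :: L, P => by
    have h1 := foldl_step_bound w L (step w P t)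
    have h2 : sz (step w P t) ≤ sz P + (sz t + 2 * sz (w.1 + w.2) + 2) := by
      unfold step
      have h3 := sz_nat_mono_le (del_le_add w P t)
      simp only [sz_list_cons, sz_pair] at h3 ⊢
      omega
    rw [List.foldl_cons]
    have h4 : sz (t :: L) = sz t + sz L + 1 := sz_list_cons t L
    rw [h4, List.length_cons]
    have h5 : L.length * (sz L + 2 * sz (w.1 + w.2) + 2) ≤
        L.length * (sz t + sz L + 1 + 2 * sz (w.1 + w.2) + 2) := Nat.mul_le_mul_left _ (by omega)
    nlinarith

theorem poly_run {w : α → ℕ × ℕ} {L : α → List Tri} (hw : Poly w) (hL : Poly L) :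
    Poly (fun a => run (w a) (L a)) := by
  have hsum : Poly (fun a => (w a).1 + (w a).2) := Poly.add (Poly.fst hw) (Poly.snd hw)
  obtain ⟨p, hp⟩ := hL.sz_le
  obtain ⟨q, hq⟩ := hsum.sz_le
  refine Poly.foldl (l := L) (s := fun _ => ([] : List (Tri × ℕ)))
    (F := fun a P t => step (w a) P t) hL (NPC.Poly.const _) ?_
    (Polynomial.C 1 + p * (p + Polynomial.C 2 * q + Polynomial.C 2)) ?_
  · exact Poly.cons (Poly.pair (Poly.snd (Poly.snd Poly.id))
      (poly_del (hw.comp (Poly.fst Poly.id)) (Poly.fst (Poly.snd Poly.id))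
        (Poly.snd (Poly.snd Poly.id)))) (Poly.fst (Poly.snd Poly.id))
  · intro a k _
    refine (foldl_step_bound (w a) ((L a).take k) []).trans ?_
    have h1 := hp a
    have h2 := hq a
    have h3 := NPC.Poly.sz_take_le (L a) k
    have h4 := length_lt_sz ((L a).take k)
    simp only [Polynomial.eval_add, Polynomial.eval_mul, Polynomial.eval_C, sz_list_nil]
    refine Nat.add_le_add_left (Nat.mul_le_mul ?_ ?_) 1
    · omega
    · omega

theorem poly_tris {f : α → Inst} (hf : Poly f) : Poly (fun a => tris (f a)) := by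
  unfold tris
  refine Poly.flatMap (Poly.zipIdx (poly_edges hf)) ?_
  refine Poly.flatMap (Poly.zipIdx (poly_edges (hf.comp (Poly.fst Poly.id)))) ?_
  refine Poly.ite (Poly.decide_eq (Poly.fst (Poly.fst (Poly.snd (Poly.fst Poly.id))))
    (Poly.fst (Poly.fst (Poly.snd Poly.id)))) (NPC.Poly.const []) ?_
  refine NPC.Poly.map (F := fun (x : (α × ((ℕ × List ℕ) × ℕ)) × ((ℕ × List ℕ) × ℕ)) v =>
    ((Sum.inl x.1.2.2, Sum.inl x.2.2, Sum.inr (v, x.1.2.1.1)) : Tri)) ?_ ?_
  · refine Poly.filter (Poly.snd (Poly.fst (Poly.snd (Poly.fst Poly.id)))) ?_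
    exact Poly.decide_mem (Poly.snd Poly.id) (Poly.snd (Poly.fst (Poly.snd (Poly.fst Poly.id))))
  · refine Poly.pair (Poly.inl (Poly.snd (Poly.snd (Poly.fst (Poly.fst Poly.id))))) (Poly.pair
      (Poly.inl (Poly.snd (Poly.snd (Poly.fst Poly.id)))) (Poly.inr (Poly.pair
        (Poly.snd Poly.id) (Poly.fst (Poly.fst (Poly.snd (Poly.fst (Poly.fst Poly.id))))))))

theorem poly_surv {f : α → Inst} {w : α → ℕ × ℕ} (hf : Poly f) (hw : Poly w) :
    Poly (fun a => surv (f a) (w a)) := by
  have h1 : Poly (fun x : α × ((ℕ × List ℕ) × ℕ) => run (w x.1) (tris (f x.1))) :=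
    poly_run (hw.comp (Poly.fst Poly.id)) (poly_tris (hf.comp (Poly.fst Poly.id)))
  have h2 : Poly (fun x : α × ((ℕ × List ℕ) × ℕ) => (Sum.inl x.2.2 : El)) :=
    Poly.inl (Poly.snd (Poly.snd Poly.id))
  have h3 : Poly (fun x : α × ((ℕ × List ℕ) × ℕ) => (w x.1).1) :=
    Poly.fst (hw.comp (Poly.fst Poly.id))
  have h4 : Poly (fun x : α × ((ℕ × List ℕ) × ℕ) =>
      !(decide (paid (run (w x.1) (tris (f x.1))) (Sum.inl x.2.2) = (w x.1).1))) :=
    Poly.not (Poly.decide_eq (poly_paid h1 h2) h3)
  have h5 : Poly (fun a => (edges (f a)).zipIdx) := Poly.zipIdx (poly_edges hf)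
  have h6 := Poly.filter (l := fun a => (edges (f a)).zipIdx)
    (p := fun a e => !(decide (paid (run (w a) (tris (f a))) (Sum.inl e.2) = (w a).1))) h5 h4
  exact h6

theorem poly_pairs {f : α → Inst} {w : α → ℕ × ℕ} (hf : Poly f) (hw : Poly w) :
    Poly (fun a => pairs (f a) (w a)) := by
  refine Poly.flatMap (F := fun _ (e : (ℕ × List ℕ) × ℕ) => e.1.2.map fun v => (v, e.1.1))
    (poly_surv hf hw) ?_
  refine NPC.Poly.map (F := fun (x : α × ((ℕ × List ℕ) × ℕ)) v => (v, x.2.1.1))
    (Poly.snd (Poly.fst (Poly.snd Poly.id))) ?_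
  exact Poly.pair (Poly.snd Poly.id) (Poly.fst (Poly.fst (Poly.snd (Poly.fst Poly.id))))

theorem poly_col0 {f : α → Inst} (hf : Poly f) : Poly (fun a => col0 (f a)) :=
  Poly.head?_getD (poly_colours hf) 0

theorem poly_out {f : α → Inst} {w : α → ℕ × ℕ} (hf : Poly f) (hw : Poly w) :
    Poly (fun a => out (f a) (w a)) := by
  refine Poly.append (poly_pairs hf hw) ?_
  refine NPC.Poly.map (F := fun a v => (v, col0 (f a))) ?_ ?_
  · refine Poly.filter (p := fun a v => !(pairs (f a) (w a)).any fun p => decide (p.1 = v))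
      (poly_nodes hf) (Poly.not ?_)
    refine Poly.any (p := fun (x : α × ℕ) p => decide (p.1 = x.2))
      (poly_pairs (hf.comp (Poly.fst Poly.id)) (hw.comp (Poly.fst Poly.id))) ?_
    exact Poly.decide_eq (Poly.fst (Poly.snd Poly.id)) (Poly.snd (Poly.fst Poly.id))
  · exact Poly.pair (Poly.snd Poly.id) (poly_col0 (hf.comp (Poly.fst Poly.id)))

theorem poly_extraC {f : α → Inst} {o : α → List (ℕ × ℕ)} (hf : Poly f) (ho : Poly o) :
    Poly (fun a => extraC (f a) (o a)) := by
  have h1 : Poly (fun x : (α × ℕ) × ℕ => decide ((x.1.2, x.2) ∈ o x.1.1)) :=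
    (Poly.decide_mem (f := fun x : (α × ℕ) × ℕ => (x.1.2, x.2)) (l := fun x => o x.1.1)
      (Poly.pair (Poly.snd (Poly.fst Poly.id)) (Poly.snd Poly.id))
      (ho.comp (Poly.fst (Poly.fst Poly.id)))).congr fun x => decide_eq_decide.2 Iff.rfl
  have h2 : Poly (fun x : α × ℕ => (colours (f x.1)).filter (fun c => decide ((x.2, c) ∈ o x.1))) :=
    Poly.filter (l := fun x : α × ℕ => colours (f x.1))
      (p := fun (x : α × ℕ) c => decide ((x.2, c) ∈ o x.1))
      (poly_colours (hf.comp (Poly.fst Poly.id))) h1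
  have h3 : Poly (fun x : α × ℕ =>
      ((colours (f x.1)).filter (fun c => decide ((x.2, c) ∈ o x.1))).length - 1) :=
    Poly.sub (Poly.length h2) (NPC.Poly.const 1)
  exact Poly.sum (NPC.Poly.map (l := fun a => nodes (f a)) (F := fun a v =>
    ((colours (f a)).filter (fun c => decide ((v, c) ∈ o a))).length - 1) (poly_nodes hf) h3)

theorem poly_mistC {f : α → Inst} {o : α → List (ℕ × ℕ)} (hf : Poly f) (ho : Poly o) :
    Poly (fun a => mistC (f a) (o a)) := by
  have h1 : Poly (fun x : (α × (ℕ × List ℕ)) × ℕ => decide ((x.2, x.1.2.1) ∈ o x.1.1)) :=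
    (Poly.decide_mem (f := fun x : (α × (ℕ × List ℕ)) × ℕ => (x.2, x.1.2.1)) (l := fun x => o x.1.1)
      (Poly.pair (Poly.snd Poly.id) (Poly.fst (Poly.snd (Poly.fst Poly.id))))
      (ho.comp (Poly.fst (Poly.fst Poly.id)))).congr fun x => decide_eq_decide.2 Iff.rfl
  have h2 : Poly (fun x : α × (ℕ × List ℕ) => x.2.2.all fun v => decide ((v, x.2.1) ∈ o x.1)) :=
    Poly.all (l := fun x : α × (ℕ × List ℕ) => x.2.2)
      (p := fun (x : α × (ℕ × List ℕ)) v => decide ((v, x.2.1) ∈ o x.1))
      (Poly.snd (Poly.snd Poly.id)) h1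
  exact Poly.length (Poly.filter (l := fun a => edges (f a))
    (p := fun a e => !(e.2.all fun v => decide ((v, e.1) ∈ o a))) (poly_edges hf) (Poly.not h2))

theorem poly_cands {f : α → Inst} (hf : Poly f) : Poly (fun a => cands (f a)) := by
  unfold cands
  refine Poly.cons (Poly.pair (Poly.succ (Poly.mul (NPC.Poly.const 2) (poly_budget hf)))
    (NPC.Poly.const 1)) ?_
  refine Poly.cons (Poly.pair (NPC.Poly.const 1) (Poly.succ (Poly.length (poly_edges hf)))) ?_
  refine NPC.Poly.map (F := fun a k => (budget (f a), k)) ?_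
    (Poly.pair (poly_budget (hf.comp (Poly.fst Poly.id))) (Poly.snd Poly.id))
  refine (Poly.range_length (l := fun a => (0, []) :: edges (f a))
    (Poly.cons (NPC.Poly.const (0, [])) (poly_edges hf))).congr ?_
  intro a
  simp

theorem poly_good {f : α → Inst} (hf : Poly f) : Poly (fun a => good (f a)) := by
  refine Poly.filter (p := fun a o => decide (extraC (f a) o ≤ 9 * budget (f a)))
    (NPC.Poly.map (F := fun a w => out (f a) w) (poly_cands hf)
      (poly_out (hf.comp (Poly.fst Poly.id)) (Poly.snd Poly.id))) ?_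
  exact Poly.decide_le (poly_extraC (hf.comp (Poly.fst Poly.id)) (Poly.snd Poly.id))
    (Poly.mul (NPC.Poly.const 9) (poly_budget (hf.comp (Poly.fst Poly.id))))

theorem poly_alg : Poly alg := by
  refine Poly.head?_getD (l := fun I => (good I).filter
    (fun o => (good I).all fun o' => decide (mistC I o ≤ mistC I o'))) ?_ []
  refine Poly.filter (p := fun I o => (good I).all fun o' => decide (mistC I o ≤ mistC I o'))
    (poly_good Poly.id) ?_
  refine Poly.all (p := fun (x : Inst × List (ℕ × ℕ)) o' => decide (mistC x.1 x.2 ≤ mistC x.1 o'))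
    (poly_good (Poly.fst Poly.id)) ?_
  exact Poly.decide_le (poly_mistC (Poly.fst (Poly.fst Poly.id)) (Poly.snd (Poly.fst Poly.id)))
    (poly_mistC (Poly.fst (Poly.fst Poly.id)) (Poly.snd Poly.id))

end PolyTime

/-- **Theorem.** GlobalECC admits a constant-constant bicriteria approximation, with `α = β = 9`:
there is an algorithm, computed on binary encodings by a polynomial-time Turing machine, that on
every valid instance outputs an assignment with at most `9 * b` extra colours and at most
`9 * OPT` mistakes. -/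
theorem result : ∃ A : Inst → List (ℕ × ℕ), Bicriteria 9 9 A ∧
    ∃ F : List Bool → List Bool, PolyTime F ∧ ∀ I : Inst, F (bits I) = bits (A I) := by
  refine ⟨alg, alg_bicriteria, ?_⟩
  have h1 : Poly (fun x : List Bool => (unbits Inst x).map alg) :=
    Poly.optMap (f := fun _ I => alg I) poly_unbits (poly_alg.comp (Poly.snd Poly.id))
  refine ⟨_, polyTime_opt h1, fun I => ?_⟩
  rw [unbits_bits]
  rfl

end Pool.Agent.Results.MP_120f76_lc.ConstantBicriteria
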